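import Mathlib

set_option autoImplicit false
set_option maxHeartbeats 400000

open Filter Topology Set Matrix

namespace Pool.Agent.Results.MP_83d7ff_an.Plq

variable {n : ℕ}

/-- quadratic functions -/
def Quad (q : (Fin n → ℝ) → ℝ) : Prop := ∃ (Q : Matrix (Fin n) (Fin n) ℝ) (b : Fin n → ℝ) (c : ℝ),
  ∀ x, q x = 1 / 2 * (x ⬝ᵥ Q *ᵥ x) + b ⬝ᵥ x + c

/-- polyhedra -/
def Poly (P : Set (Fin n → ℝ)) : Prop := ∃ s : Set ((Fin n → ℝ) × ℝ), s.Finite ∧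
  (∀ h ∈ s, h.1 ≠ 0) ∧ P = {x | ∀ h ∈ s, h.1 ⬝ᵥ x ≤ h.2}

/-- piecewise quadratic -/
def PQ (f : (Fin n → ℝ) → ℝ) : Prop := Continuous f ∧ ∃ s : Set ((Fin n → ℝ) → ℝ), s.Finite ∧
  (∀ q ∈ s, Quad q) ∧ ∀ x, ∃ q ∈ s, f x = q x

/-- piecewise linear-quadratic -/
def PLQ (f : (Fin n → ℝ) → ℝ) : Prop := ∃ s : Set (Set (Fin n → ℝ)), s.Finite ∧ ⋃₀ s = univ ∧
  ∀ P ∈ s, Poly P ∧ ∃ q, Quad q ∧ EqOn f q P

/-- twice semidifferentiable at a point -/
def Twice (f : (Fin n → ℝ) → ℝ) (x : Fin n → ℝ) : Prop := ∃ d : (Fin n → ℝ) → ℝ,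
  (∀ v, Tendsto (fun p : (Fin n → ℝ) × ℝ => (f (x + p.2 • p.1) - f x) / p.2)
    (𝓝 v ×ˢ 𝓝[>] 0) (𝓝 (d v))) ∧
  ∀ w, ∃ L, Tendsto (fun p : (Fin n → ℝ) × ℝ => (f (x + p.2 • p.1) - f x - p.2 * d p.1) / p.2 ^ 2)
    (𝓝 w ×ˢ 𝓝[>] 0) (𝓝 L)

noncomputable def B (q : (Fin n → ℝ) → ℝ) (v : Fin n → ℝ) : ℝ := (q v + q (-v)) / 2 - q 0

noncomputable def gr (q : (Fin n → ℝ) → ℝ) (x : Fin n → ℝ) (i : Fin n) : ℝ :=
  (q (x + Pi.single i 1) - q (x - Pi.single i 1)) / 2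

theorem Quad.exp {q : (Fin n → ℝ) → ℝ} (h : Quad q) (x v : Fin n → ℝ) (t : ℝ) :
    q (x + t • v) = q x + t * (gr q x ⬝ᵥ v) + t ^ 2 * B q v := by
  obtain ⟨Q, b, c, h⟩ := h
  have : gr q x = (1 / 2 : ℝ) • (Q *ᵥ x + x ᵥ* Q) + b := by
    ext i
    simp only [gr, h, mulVec_add, mulVec_sub, dotProduct_add, add_dotProduct, dotProduct_sub,
      sub_dotProduct, dotProduct_mulVec x, dotProduct_single, single_dotProduct]
    simp; ring
  simp only [this, B, h, mulVec_add, mulVec_smul, mulVec_neg, dotProduct_add, add_dotProduct,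
    dotProduct_smul, smul_dotProduct, dotProduct_neg, neg_dotProduct, smul_eq_mul, mulVec_zero,
    dotProduct_zero, ← dotProduct_mulVec, dotProduct_comm (Q *ᵥ x) v]
  ring

theorem Quad.hom {q : (Fin n → ℝ) → ℝ} (h : Quad q) (v : Fin n → ℝ) (t : ℝ) :
    B q (t • v) = t ^ 2 * B q v := by
  have a := h.exp 0 v t
  have b := h.exp 0 v (-t)
  rw [zero_add] at a b
  rw [B, ← neg_smul, a, b]; ring

theorem pr (i : Fin n) (x : Fin n → ℝ) : AnalyticAt ℝ (fun v : Fin n → ℝ => v i) x :=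
  (ContinuousLinearMap.proj (R := ℝ) (φ := fun _ => ℝ) i).analyticAt x

theorem anl (a x : Fin n → ℝ) : AnalyticAt ℝ (fun v => a ⬝ᵥ v) x :=
  Finset.analyticAt_fun_sum _ fun i _ => analyticAt_const.mul (pr i x)

theorem Quad.an {q : (Fin n → ℝ) → ℝ} (h : Quad q) (x : Fin n → ℝ) : AnalyticAt ℝ q x := by
  obtain ⟨Q, b, c, h⟩ := h
  rw [funext h]
  exact ((analyticAt_const.mul (Finset.analyticAt_fun_sum _ fun i _ => (pr i x).mul (anl (Q i) x))).add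
    (anl b x)).add analyticAt_const

theorem Quad.anB {q : (Fin n → ℝ) → ℝ} (h : Quad q) (x : Fin n → ℝ) : AnalyticAt ℝ (B q) x := by
  have := h.an
  unfold B; fun_prop

theorem Quad.sub {q r : (Fin n → ℝ) → ℝ} (h : Quad q) (k : Quad r) : Quad (q - r) := by
  obtain ⟨Q, b, c, h⟩ := h
  obtain ⟨Q', b', c', k⟩ := k
  exact ⟨Q - Q', b - b', c - c', fun x => by
    simp only [Pi.sub_apply, h, k, sub_mulVec, dotProduct_sub, sub_dotProduct]; ring⟩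

theorem gen {ι : Type} {t : Set ι} (ht : t.Finite) (h : ι → (Fin n → ℝ) → ℝ)
    (an : ∀ i ∈ t, ∀ x, AnalyticAt ℝ (h i) x) (ne : ∀ i ∈ t, ∃ v, h i v ≠ 0) :
    Dense {v | ∀ i ∈ t, h i v ≠ 0} := by
  have := dense_biInter_of_isOpen (f := fun i => {v | h i v ≠ 0}) (fun i hi => isOpen_ne_fun
    (continuous_iff_continuousAt.2 fun x => (an i hi x).continuousAt) continuous_const) ht.countable
    fun i hi => dense_iff_inter_open.2 fun U hU ⟨u, hu⟩ => by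
      by_contra c
      obtain ⟨v, hv⟩ := ne i hi
      refine hv (AnalyticOnNhd.eqOn_zero_of_preconnected_of_eventuallyEq_zero (fun x _ => an i hi x)
        isPreconnected_univ (mem_univ u) ?_ (mem_univ v))
      filter_upwards [hU.mem_nhds hu] with y hy
      by_contra e
      exact c ⟨y, hy, e⟩
  exact this.mono fun v hv i hi => mem_iInter₂.1 hv i hi

theorem nz {a : Fin n → ℝ} (h : a ≠ 0) : ∃ v, a ⬝ᵥ v ≠ 0 := ⟨a, mt dotProduct_self_eq_zero.1 h⟩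

theorem ray {F : (Fin n → ℝ) × ℝ → ℝ} {v : Fin n → ℝ} {L : ℝ}
    (h : Tendsto F (𝓝 v ×ˢ 𝓝[>] 0) (𝓝 L)) : Tendsto (fun t => F (v, t)) (𝓝[>] 0) (𝓝 L) :=
  h.comp (tendsto_const_nhds.prodMk tendsto_id)

theorem cont {F : (Fin n → ℝ) × ℝ → ℝ} {d : (Fin n → ℝ) → ℝ}
    (h : ∀ v, Tendsto F (𝓝 v ×ˢ 𝓝[>] 0) (𝓝 (d v))) : Continuous d := by
  refine continuous_iff_continuousAt.2 fun v => (closed_nhds_basis (d v)).tendsto_right_iff.2 ?_
  rintro s ⟨h1, h2⟩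
  filter_upwards [((h v).eventually_mem h1).curry] with w hw
  exact h2.mem_of_tendsto (ray (h w)) hw

theorem freq {s : Set ((Fin n → ℝ) → ℝ)} (hs : s.Finite) {f : (Fin n → ℝ) → ℝ}
    (h : ∀ x, ∃ q ∈ s, f x = q x) {l : Filter ℝ} {c : ℝ → Fin n → ℝ} {q : (Fin n → ℝ) → ℝ}
    (u : ∀ r ∈ s, (∃ᶠ t in l, f (c t) = r (c t)) → r = q) : ∀ᶠ t in l, f (c t) = q (c t) := by
  have : ∀ᶠ t in l, ∀ r ∈ s, r ≠ q → f (c t) ≠ r (c t) := (eventually_all_finite hs).2 fun r hr => by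
    by_cases e : r = q
    · simp [e]
    · exact (not_frequently.1 (mt (u r hr) e)).mono fun t a _ => a
  filter_upwards [this] with t ht
  obtain ⟨r, hr, e⟩ := h (c t)
  by_contra k
  exact ht r hr (fun a => k (a ▸ e)) e

theorem sel {f q : (Fin n → ℝ) → ℝ} (hf : Continuous f) (hq : Quad q) {x w : Fin n → ℝ} {l : Filter ℝ}
    (hl : l ≤ 𝓝[≠] 0) (fr : ∃ᶠ t in l, f (x + t • w) = q (x + t • w)) {a : ℝ}
    (h : Tendsto (fun t : ℝ => (f (x + t • w) - f x) / t) l (𝓝 a)) :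
    q x = f x ∧ a = gr q x ⬝ᵥ w ∧ ∀ L,
      Tendsto (fun t : ℝ => (f (x + t • w) - f x - t * a) / t ^ 2) l (𝓝 L) → L = B q w := by
  have l0 : l ≤ 𝓝 0 := hl.trans nhdsWithin_le_nhds
  have fr' := fr.and_eventually (hl self_mem_nhdsWithin : ∀ᶠ t in l, t ≠ 0)
  have c : Continuous fun t : ℝ => x + t • w := by fun_prop
  have e : f x = q x := tendsto_nhds_unique_of_frequently_eq
    (((hf.comp c).tendsto' 0 _ (by simp)).mono_left l0)
    ((((continuous_iff_continuousAt.2 fun y => (hq.an y).continuousAt).comp c).tendsto' 0 _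
      (by simp)).mono_left l0) fr
  have e1 : a = gr q x ⬝ᵥ w := tendsto_nhds_unique_of_frequently_eq h
    (((by fun_prop : Continuous fun t : ℝ => gr q x ⬝ᵥ w + t * B q w).tendsto' 0 _
      (by simp)).mono_left l0) (fr'.mono fun t ⟨a, b⟩ => by rw [a, hq.exp, e]; field_simp; ring)
  exact ⟨e.symm, e1, fun L hL => tendsto_nhds_unique_of_frequently_eq hL tendsto_const_nhds
    (fr'.mono fun t ⟨a, b⟩ => by rw [a, hq.exp, e, e1]; field_simp; ring)⟩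

theorem lin {f : (Fin n → ℝ) → ℝ} (hf : Continuous f) {s : Set ((Fin n → ℝ) → ℝ)} (hs : s.Finite)
    (hq : ∀ q ∈ s, Quad q) (h : ∀ x, ∃ q ∈ s, f x = q x) {x : Fin n → ℝ} (T : Twice f x)
    (nb : ∀ q ∈ s, ∀ r ∈ s, q x = r x → gr q x - gr r x ≠ 0 →
      ∃ w, (gr q x - gr r x) ⬝ᵥ w = 0 ∧ B q w ≠ B r w) (v : Fin n → ℝ) :
    ∃ a, Tendsto (fun t : ℝ => (f (x + t • v) - f x) / t) (𝓝[≠] 0) (𝓝 a) := by
  obtain ⟨d, h1, h2⟩ := T
  choose e h2 using h2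
  have cd := cont h1
  have ce := cont h2
  have S : ∀ w, ∃ q ∈ s, q x = f x ∧ d w = gr q x ⬝ᵥ w ∧ e w = B q w := fun w => by
    obtain ⟨q, hq', fr⟩ : ∃ q ∈ s, ∃ᶠ t in 𝓝[>] (0 : ℝ), f (x + t • w) = q (x + t • w) := by
      by_contra! c
      obtain ⟨t, ht⟩ := ((eventually_all_finite hs).2 c).exists
      obtain ⟨q, a, b⟩ := h (x + t • w)
      exact ht q a b
    obtain ⟨a, b, c⟩ := sel hf (hq q hq') (nhdsGT_le_nhdsNE 0) fr (ray (h1 w))
    exact ⟨q, hq', a, b, c _ (ray (h2 w))⟩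
  have cl : ∀ P : ((Fin n → ℝ) → ℝ) → Prop,
      IsClosed {w | ∃ q ∈ s, P q ∧ q x = f x ∧ d w = gr q x ⬝ᵥ w ∧ e w = B q w} := fun P => by
    have := hs.isClosed_biUnion (f := fun q => {w | P q ∧ q x = f x ∧ d w = gr q x ⬝ᵥ w ∧ e w = B q w})
      fun q a => isClosed_const.inter (isClosed_const.inter ((isClosed_eq cd (by fun_prop)).inter
        (isClosed_eq ce (continuous_iff_continuousAt.2 fun y => ((hq q a).anB y).continuousAt))))
    convert this using 1; ext; simp only [mem_iUnion, mem_ofPred_eq, exists_prop]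
  set t := {z ∈ s ×ˢ s | z.1 x = z.2 x ∧ gr z.1 x - gr z.2 x ≠ 0}
  have ft : t.Finite := (hs.prod hs).subset fun _ a => a.1
  obtain ⟨p, hp⟩ := (gen ft (fun z v => (gr z.1 x - gr z.2 x) ⬝ᵥ v) (fun _ _ => anl _)
    fun z hz => nz hz.2.2).nonempty
  obtain ⟨q0, m0, k0⟩ := S p
  have D := gen ft (fun z r => B z.1 (((gr z.1 x - gr z.2 x) ⬝ᵥ p) • r - ((gr z.1 x - gr z.2 x) ⬝ᵥ r) • p)
      - B z.2 (((gr z.1 x - gr z.2 x) ⬝ᵥ p) • r - ((gr z.1 x - gr z.2 x) ⬝ᵥ r) • p))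
    (fun z hz y => by
      have := (hq _ hz.1.1).anB
      have := (hq _ hz.1.2).anB
      have := anl (gr z.1 x - gr z.2 x)
      fun_prop)
    fun z hz => by
      obtain ⟨w, a, b⟩ := nb _ hz.1.1 _ hz.1.2 hz.2.1 hz.2.2
      refine ⟨w, ?_⟩
      rw [a, zero_smul, sub_zero, (hq _ hz.1.1).hom, (hq _ hz.1.2).hom, ← mul_sub]
      exact mul_ne_zero (pow_ne_zero _ (hp z hz)) (sub_ne_zero.2 b)
  have L : d = fun v => gr q0 x ⬝ᵥ v := by
    refine cd.ext_on D (by fun_prop) fun r hr => ?_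
    have c : Continuous fun u : ℝ => p + u • (r - p) := by fun_prop
    have dj : ∀ u : ℝ, p + u • (r - p) ∈ {w | ∃ q ∈ s, gr q x = gr q0 x ∧ q x = f x ∧
        d w = gr q x ⬝ᵥ w ∧ e w = B q w} → p + u • (r - p) ∉ {w | ∃ q ∈ s, gr q x ≠ gr q0 x ∧ q x = f x ∧
        d w = gr q x ⬝ᵥ w ∧ e w = B q w} := by
      rintro u ⟨q, a1, a2, a3, a4, a5⟩ ⟨q', b1, b2, b3, b4, b5⟩
      have z : (q, q') ∈ t := ⟨⟨a1, b1⟩, a3.trans b3.symm, sub_ne_zero.2 fun k => b2 (k ▸ a2)⟩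
      have p0 := hp _ z
      have r0 := hr _ z
      have w0 : (gr q x - gr q' x) ⬝ᵥ (p + u • (r - p)) = 0 := by rw [sub_dotProduct, ← a4, ← b4, sub_self]
      dsimp only at p0 r0
      generalize gr q x - gr q' x = a at *
      rw [dotProduct_add, dotProduct_smul, dotProduct_sub, smul_eq_mul] at w0
      have u0 : u ≠ 0 := by rintro rfl; simp [p0] at w0
      have : (a ⬝ᵥ p) • r - (a ⬝ᵥ r) • p = (a ⬝ᵥ p / u) • (p + u • (r - p)) := by
        ext i; simp; field_simp; linear_combination (-p i) * w0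
      rw [this, (hq q a1).hom, (hq q' b1).hom, ← a5, ← b5, sub_self] at r0
      exact r0 rfl
    rcases isPreconnected_iff_subset_of_disjoint_closed.1 isPreconnected_univ _ _
      ((cl fun q => gr q x = gr q0 x).preimage c) ((cl fun q => gr q x ≠ gr q0 x).preimage c)
      (fun u _ => by
        obtain ⟨q, a, b⟩ := S (p + u • (r - p))
        by_cases k : gr q x = gr q0 x
        exacts [.inl ⟨q, a, k, b⟩, .inr ⟨q, a, k, b⟩])
      (eq_empty_of_forall_notMem fun u ⟨_, a, b⟩ => dj u a b) with k | k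
    · obtain ⟨q, -, a, -, b, -⟩ := k (mem_univ 1)
      simpa [a] using b
    · exact absurd (k (mem_univ 0)) (dj 0 ⟨q0, m0, rfl, by simpa using k0⟩)
  refine ⟨d v, ?_⟩
  rw [← nhdsLT_sup_nhdsGT, tendsto_sup]
  refine ⟨?_, ray (h1 v)⟩
  have := ((ray (h1 (-v))).comp (by simpa using tendsto_neg_nhdsLT (a := (0 : ℝ)))).neg
  rw [L] at this ⊢
  simpa [Function.comp_def, div_neg] using this

theorem hyp {g : (Fin n → ℝ) → ℝ} (hg : Quad g) (g0 : g ≠ 0) : ∃ H : Set ((Fin n → ℝ) × ℝ), H.Finite ∧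
    (∀ h ∈ H, h.1 ≠ 0) ∧ ∀ y a, a ≠ 0 → (∀ u, a ⬝ᵥ u = 0 → g (y + u) = 0) → ∃ h ∈ H, h.1 ⬝ᵥ y = h.2 := by
  obtain ⟨p, hp⟩ := Function.ne_iff.1 g0
  have fin : {a : Fin n → ℝ | a ≠ 0 ∧ ∀ u, a ⬝ᵥ u = 1 → g (p + u) = 0}.Finite := by
    by_contra c
    have e := Set.Infinite.natEmbedding _ c
    obtain ⟨v, hv⟩ := (gen (t := {(e 0).1, (e 1).1, (e 2).1, (e 0).1 - e 1, (e 0).1 - e 2, (e 1).1 - e 2})
      (toFinite _) (fun a v => a ⬝ᵥ v) (fun a _ => anl a) fun a ha => nz (by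
        have k : ∀ i j, i ≠ j → (e i).1 - e j ≠ 0 := fun i j h =>
          sub_ne_zero.2 fun k => h (e.injective (Subtype.ext k))
        rcases ha with rfl | rfl | rfl | rfl | rfl | rfl
        exacts [(e 0).2.1, (e 1).2.1, (e 2).2.1, k 0 1 (by simp), k 0 2 (by simp), k 1 2 (by simp)])).nonempty
    simp only [mem_ofPred_eq, mem_insert_iff, mem_singleton_iff, forall_eq_or_imp, forall_eq,
      sub_dotProduct] at hv
    obtain ⟨h0, h1, h2, h3, h4, h5⟩ := hv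
    have k : ∀ i, (e i).1 ⬝ᵥ v ≠ 0 → g p * ((e i).1 ⬝ᵥ v) ^ 2 + gr g p ⬝ᵥ v * ((e i).1 ⬝ᵥ v) + B g v = 0 :=
      fun i h => by
        have := (e i).2.2 (((e i).1 ⬝ᵥ v)⁻¹ • v) (by rw [dotProduct_smul, smul_eq_mul, inv_mul_cancel₀ h])
        rw [hg.exp] at this; field_simp at this; linarith
    refine hp (mul_left_cancel₀ (mul_ne_zero h3 (mul_ne_zero h4 h5)) ?_)
    have k0 := k 0 h0
    have k1 := k 1 h1
    have k2 := k 2 h2
    simp only [Pi.zero_apply]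
    linear_combination ((e 1).1 ⬝ᵥ v - (e 2).1 ⬝ᵥ v) * k0 - ((e 0).1 ⬝ᵥ v - (e 2).1 ⬝ᵥ v) * k1 +
      ((e 0).1 ⬝ᵥ v - (e 1).1 ⬝ᵥ v) * k2
  refine ⟨_, fin.image fun a => (a, a ⬝ᵥ p + 1), by rintro _ ⟨a, h, rfl⟩; exact h.1, fun y a a0 h => ?_⟩
  have c : a ⬝ᵥ y - a ⬝ᵥ p ≠ 0 := fun c => hp (by
    simpa using h (p - y) (by rw [dotProduct_sub]; linarith))
  refine ⟨_, ⟨(a ⬝ᵥ y - a ⬝ᵥ p)⁻¹ • a, ⟨smul_ne_zero (inv_ne_zero c) a0, fun u hu => ?_⟩, rfl⟩, ?_⟩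
  · rw [smul_dotProduct, smul_eq_mul, inv_mul_eq_one₀ c] at hu
    simpa using h (p + u - y) (by rw [dotProduct_sub, dotProduct_add]; linarith)
  · simp only [smul_dotProduct, smul_eq_mul]; field_simp; ring

theorem cell {f : (Fin n → ℝ) → ℝ} (hf : Continuous f) {s : Set ((Fin n → ℝ) → ℝ)} (hs : s.Finite)
    (hq : ∀ q ∈ s, Quad q) (h : ∀ x, ∃ q ∈ s, f x = q x) (T : ∀ x, Twice f x) {C : Set (Fin n → ℝ)}
    (o : IsOpen C) (cv : Convex ℝ C) (ne : C.Nonempty)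
    (nb : ∀ y ∈ C, ∀ q ∈ s, ∀ r ∈ s, q ≠ r → ∀ a, a ≠ 0 → ¬∀ u, a ⬝ᵥ u = 0 → (q - r) (y + u) = 0) :
    ∃ q ∈ s, EqOn f q (closure C) := by
  have ss := hs.prod hs
  obtain ⟨p, pC, hp⟩ := (gen (t := {z ∈ s ×ˢ s | z.1 ≠ z.2}) (ss.subset fun _ a => a.1)
    (fun z => z.1 - z.2) (fun z hz => ((hq _ hz.1.1).sub (hq _ hz.1.2)).an)
    fun z hz => Function.ne_iff.1 (sub_ne_zero.2 hz.2)).inter_open_nonempty C o ne
  obtain ⟨q0, m0, k0⟩ := h p
  set D : (((Fin n → ℝ) → ℝ) × ((Fin n → ℝ) → ℝ)) → (Fin n → ℝ) → ℝ := fun z r =>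
    (gr (z.1 - z.2) p ⬝ᵥ (r - p)) ^ 2 - 4 * (z.1 - z.2) p * B (z.1 - z.2) (r - p) with hD
  have dn := gen (t := {z ∈ s ×ˢ s | ∃ v, D z v ≠ 0}) (ss.subset fun _ a => a.1) D
    (fun z hz y => by
      have := ((hq _ hz.1.1).sub (hq _ hz.1.2)).anB
      have := anl (gr (z.1 - z.2) p)
      simp only [hD]; fun_prop) fun z hz => hz.2
  refine ⟨q0, m0, (EqOn.closure (s := C ∩ _) (fun r ⟨rC, hr⟩ => ?_) hf
    (continuous_iff_continuousAt.2 fun y => ((hq _ m0).an y).continuousAt)).mono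
    (closure_minimal (dn.open_subset_closure_inter o) isClosed_closure)⟩
  set v := r - p with hv
  have c : Continuous fun u : ℝ => p + u • v := by fun_prop
  have sh : ∀ u t : ℝ, p + u • v + t • v = p + (u + t) • v := fun u t => by rw [add_smul, add_assoc]
  have tr : ∀ u : ℝ, Tendsto (fun t => u + t) (𝓝[≠] 0) (𝓝 u) := fun u =>
    ((by fun_prop : Continuous fun t => u + t).tendsto' 0 _ (add_zero u)).mono_left nhdsWithin_le_nhds
  have S : ∀ u : ℝ, p + u • v ∈ C → ∃ a, ∀ q ∈ s, (∃ᶠ t in 𝓝[≠] (0 : ℝ), f (p + u • v + t • v) =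
      q (p + u • v + t • v)) → q (p + u • v) = f (p + u • v) ∧ a = gr q (p + u • v) ⬝ᵥ v := fun u hu => by
    obtain ⟨a, ha⟩ := lin hf hs hq h (T (p + u • v)) (fun q a r b e k => by
      by_contra! c
      refine nb _ hu q a r b (fun j => k (by rw [j, sub_self])) _ k fun w hw => ?_
      have := (hq q a).exp (p + u • v) w 1
      have := (hq r b).exp (p + u • v) w 1
      have := c w hw
      rw [sub_dotProduct] at hw
      simp only [one_smul, Pi.sub_apply] at *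
      linarith) v
    exact ⟨a, fun q m fr => ⟨(sel hf (hq q m) le_rfl fr ha).1, (sel hf (hq q m) le_rfl fr ha).2.1⟩⟩
  have U : ∀ u : ℝ, p + u • v ∈ C → ∀ q ∈ s, ∀ q' ∈ s, (∃ᶠ t in 𝓝[≠] (0 : ℝ), f (p + u • v + t • v) =
      q (p + u • v + t • v)) → (∃ᶠ t in 𝓝[≠] (0 : ℝ), f (p + u • v + t • v) =
      q' (p + u • v + t • v)) → q = q' := fun u hu q m q' m' f1 f2 => by
    obtain ⟨a, ha⟩ := S u hu
    obtain ⟨a1, a2⟩ := ha q m f1
    obtain ⟨b1, b2⟩ := ha q' m' f2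
    by_contra e
    have G := (hq q m).sub (hq q' m')
    have p0 : (q - q') p ≠ 0 := hp (q, q') ⟨⟨m, m'⟩, e⟩
    have y0 : (q - q') (p + u • v) = 0 := by rw [Pi.sub_apply, a1, b1, sub_self]
    have y1 : gr (q - q') (p + u • v) ⬝ᵥ v = 0 := by
      rw [show gr (q - q') (p + u • v) = gr q (p + u • v) - gr q' (p + u • v) by
        ext; simp only [gr, Pi.sub_apply]; ring, sub_dotProduct, ← a2, ← b2, sub_self]
    have e1 := G.exp (p + u • v) v (-u)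
    have e2 := G.exp (p + u • v) v (1 - u)
    have e3 := G.exp p v 1
    rw [sh, y0, y1] at e1 e2
    rw [add_neg_cancel, zero_smul, add_zero] at e1
    rw [add_sub_cancel, e3] at e2
    have D0 : D (q, q') r = 0 := by
      simp only [hD, ← hv]
      rw [show gr (q - q') p ⬝ᵥ v = -2 * u * B (q - q') v by linear_combination e2 - e1, e1]; ring
    have Dz : ∀ w, (gr (q - q') p ⬝ᵥ w) ^ 2 = 4 * (q - q') p * B (q - q') w := fun w => by
      by_contra k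
      refine hr (q, q') ⟨⟨m, m'⟩, p + w, ?_⟩ D0
      simp only [hD, add_sub_cancel_left]; exact sub_ne_zero.2 k
    have sq : ∀ w, 4 * (q - q') p * (q - q') (p + w) = (2 * (q - q') p + gr (q - q') p ⬝ᵥ w) ^ 2 :=
      fun w => by
        have := G.exp p w 1
        rw [one_smul] at this
        rw [this]; linear_combination (-1) * Dz w
    have z := sq (u • v)
    rw [y0, mul_zero, eq_comm, pow_eq_zero_iff two_ne_zero] at z
    refine nb _ hu q m q' m' e (gr (q - q') p) (fun k => p0 (by simpa [k] using z)) fun w hw => ?_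
    have := sq (u • v + w)
    rw [dotProduct_add, hw, add_zero, z, ← add_assoc] at this
    exact (mul_eq_zero.1 (this.trans (zero_pow two_ne_zero))).resolve_left (mul_ne_zero four_ne_zero p0)
  have E : ∀ u : ℝ, p + u • v ∈ C → ∃ q ∈ s, ∀ᶠ t in 𝓝 u, f (p + t • v) = q (p + t • v) := fun u hu => by
    obtain ⟨q, m, fr⟩ : ∃ q ∈ s, ∃ᶠ t in 𝓝[≠] (0 : ℝ), f (p + u • v + t • v) = q (p + u • v + t • v) := by
      by_contra! c
      obtain ⟨t, ht⟩ := ((eventually_all_finite hs).2 c).exists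
      obtain ⟨q, a, b⟩ := h (p + u • v + t • v)
      exact ht q a b
    have ev := freq hs h fun r a b => U u hu r a q m b fr
    obtain ⟨a, ha⟩ := S u hu
    have : ∀ᶠ t in 𝓝 (0 : ℝ), f (p + u • v + t • v) = q (p + u • v + t • v) := by
      rw [← nhdsNE_sup_pure, eventually_sup]
      exact ⟨ev, by simpa using (ha q m fr).1.symm⟩
    refine ⟨q, m, (((by fun_prop : Continuous fun t => t - u).tendsto' u 0 (sub_self u)).eventually
      this).mono fun t ht => ?_⟩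
    simpa [sh] using ht
  have fq : ∀ (u : ℝ) (q : (Fin n → ℝ) → ℝ), (∀ᶠ t in 𝓝 u, f (p + t • v) = q (p + t • v)) →
      ∃ᶠ t in 𝓝[≠] (0 : ℝ), f (p + u • v + t • v) = q (p + u • v + t • v) := fun u q k => by
    simpa only [sh] using ((tr u).eventually k).frequently
  have I : ∀ u ∈ Icc (0 : ℝ) 1, p + u • v ∈ C := fun u hu => cv.add_smul_sub_mem pC rC hu
  have := isPreconnected_Icc.subset_left_of_subset_union
    (u := {u : ℝ | ∀ᶠ t in 𝓝 u, f (p + t • v) = q0 (p + t • v)})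
    (v := {u : ℝ | p + u • v ∈ C} ∩ ⋃ q ∈ s \ {q0}, {u : ℝ | ∀ᶠ t in 𝓝 u, f (p + t • v) = q (p + t • v)})
    isOpen_setOfPred_eventually_nhds ((o.preimage c).inter (isOpen_biUnion fun _ _ => isOpen_setOfPred_eventually_nhds))
    (disjoint_left.2 fun u a ⟨b, k⟩ => by
      obtain ⟨q, m, k⟩ := mem_iUnion₂.1 k
      exact m.2 (U u b q m.1 q0 m0 (fq u q k) (fq u q0 a)))
    (fun u hu => by
      obtain ⟨q, m, k⟩ := E u (I u hu)
      by_cases e : q = q0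
      exacts [.inl (e ▸ k), .inr ⟨I u hu, mem_iUnion₂.2 ⟨q, ⟨m, e⟩, k⟩⟩])
    ⟨0, left_mem_Icc.2 zero_le_one, by
      obtain ⟨q, m, k⟩ := E 0 (I 0 (left_mem_Icc.2 zero_le_one))
      have := k.self_of_nhds
      rw [zero_smul, add_zero, k0] at this
      by_cases e : q = q0
      · exact e ▸ k
      · exact absurd (sub_eq_zero.2 this.symm) (hp (q, q0) ⟨⟨m, m0⟩, e⟩)⟩
  simpa [hv] using Eventually.self_of_nhds (this (right_mem_Icc.2 zero_le_one))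

theorem result (n : ℕ) (f : (Fin n → ℝ) → ℝ) (hf : PQ f) (T : ∀ x, Twice f x) : PLQ f := by
  obtain ⟨hf, s, hs, hq, h⟩ := hf
  have : ∀ z ∈ {z ∈ s ×ˢ s | z.1 ≠ z.2}, ∃ H : Set ((Fin n → ℝ) × ℝ), H.Finite ∧ (∀ h ∈ H, h.1 ≠ 0) ∧
      ∀ y a, a ≠ 0 → (∀ u, a ⬝ᵥ u = 0 → (z.1 - z.2) (y + u) = 0) → ∃ h ∈ H, h.1 ⬝ᵥ y = h.2 :=
    fun z hz => hyp ((hq _ hz.1.1).sub (hq _ hz.1.2)) (sub_ne_zero.2 hz.2)
  choose! H h1 h2 h3 using this
  set K := ⋃ z ∈ {z ∈ s ×ˢ s | z.1 ≠ z.2}, H z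
  have fK : K.Finite := ((hs.prod hs).subset fun _ a => a.1).biUnion h1
  have K0 : ∀ h ∈ K, h.1 ≠ 0 := fun k hk => by
    obtain ⟨z, a, b⟩ := mem_iUnion₂.1 hk
    exact h2 z a k b
  set J := {S ∈ 𝒫 (K ∪ -K) | (∀ h ∈ K, h ∈ S ∨ -h ∈ S) ∧ ∃ y, ∀ h ∈ S, h.1 ⬝ᵥ y < h.2}
  have fJ : J.Finite := (fK.union fK.neg).finite_subsets.subset fun _ a => a.1
  refine ⟨_, fJ.image fun S => {x | ∀ h ∈ S, h.1 ⬝ᵥ x ≤ h.2}, ?_, ?_⟩
  · have cl : IsClosed (⋃₀ ((fun S => {x | ∀ h ∈ S, h.1 ⬝ᵥ x ≤ h.2}) '' J)) := by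
      rw [sUnion_image]
      refine fJ.isClosed_biUnion fun S _ => ?_
      simp only [ofPred_forall]
      exact isClosed_iInter fun _ => isClosed_iInter fun _ => isClosed_le (by fun_prop) continuous_const
    rw [← cl.closure_eq]
    refine ((gen fK (fun h y => h.1 ⬝ᵥ y - h.2) (fun k _ y => (anl _ y).sub analyticAt_const)
      fun k hk => ?_).mono fun y hy => ?_).closure_eq
    · obtain ⟨v, hv⟩ := nz (K0 k hk)
      exact ⟨((k.2 + 1) / (k.1 ⬝ᵥ v)) • v, by rw [dotProduct_smul, smul_eq_mul, div_mul_cancel₀ _ hv]; simp⟩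
    · refine ⟨_, ⟨{h ∈ K ∪ -K | h.1 ⬝ᵥ y < h.2}, ⟨fun _ a => a.1, fun k hk => ?_, y, fun _ a => a.2⟩, rfl⟩,
        fun _ a => a.2.le⟩
      rcases lt_or_gt_of_ne (sub_ne_zero.1 (hy k hk)) with a | a
      · exact .inl ⟨.inl hk, a⟩
      · exact .inr ⟨.inr (by simpa using hk), by simpa using a⟩
  rintro _ ⟨S, ⟨a, b, y, hy⟩, rfl⟩
  have fS : S.Finite := (fK.union fK.neg).subset a
  obtain ⟨q, m, e⟩ := cell hf hs hq h T (C := {x | ∀ h ∈ S, h.1 ⬝ᵥ x < h.2}) (by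
      simp only [ofPred_forall]
      exact fS.isOpen_biInter fun _ _ => isOpen_lt (by fun_prop) continuous_const) (by
      simp only [ofPred_forall]
      exact convex_iInter₂ fun k _ => convex_halfSpace_lt
        ⟨dotProduct_add k.1, fun c x => dotProduct_smul c k.1 x⟩ _) ⟨y, hy⟩
    fun x hx q m r m' e a a0 k => by
      obtain ⟨j, j1, j2⟩ := h3 (q, r) ⟨⟨m, m'⟩, e⟩ x a a0 k
      rcases b j (mem_iUnion₂.2 ⟨_, ⟨⟨m, m'⟩, e⟩, j1⟩) with c | c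
      · exact (hx j c).ne j2
      · simpa [j2] using hx _ c
  refine ⟨⟨S, fS, fun k hk => ?_, rfl⟩, q, hq q m, e.mono fun x hx => ?_⟩
  · rcases a hk with c | c
    exacts [K0 k c, by simpa using K0 _ c]
  · refine mem_closure_of_tendsto (b := 𝓝[>] (0 : ℝ)) (((by fun_prop : Continuous fun t : ℝ =>
      x + t • (y - x)).tendsto' 0 x (by simp)).mono_left nhdsWithin_le_nhds) ?_
    filter_upwards [Ioo_mem_nhdsGT one_pos] with t ht k hk
    rw [dotProduct_add, dotProduct_smul, dotProduct_sub, smul_eq_mul]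
    nlinarith [hx k hk, hy k hk, ht.1, ht.2]

end Pool.Agent.Results.MP_83d7ff_an.Plq
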